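import Pool.Agent.U644.BY.Line

set_option autoImplicit false

/-!
# Symplectic four-manifolds with finite fundamental group and `3 σ = χ`

Universal coverings multiply the Euler characteristic and the signature by the order of the
fundamental group.
-/

namespace Pool.Agent.U450.BY

open Pool.Agent.U644.BY

universe u

/-- Fundamental groups and universal coverings. -/
structure Cov (S : Symp.{u}) where
  /-- the order of the fundamental group; `0` if it is infinite -/
  ord : S.M → ℕ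
  /-- the universal covering, with the pulled back symplectic form (if `ord X ≠ 0`) -/
  uc : S.M → S.M
  ord_sc : ∀ X, ord X = 1 ↔ S.sc X
  sc_uc : ∀ X, ord X ≠ 0 → S.sc (uc X)
  uc_sc : ∀ X, S.sc X → uc X = X
  e_uc : ∀ X, ord X ≠ 0 → S.e (uc X) = ord X * S.e X
  sg_uc : ∀ X, ord X ≠ 0 → S.sg (uc X) = ord X * S.sg X

variable {S : Symp.{u}} (C : Cov S)

include C

lemma exc_uc (X : S.M) (h : C.ord X ≠ 0) : exc (C.uc X) = C.ord X * exc X := by
  unfold exc
  rw [C.e_uc X h, C.sg_uc X h]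
  ring

lemma c1sq_eq (X : S.M) : S.c1sq X = 3 * S.e X + exc X := by
  unfold Symp.c1sq exc
  ring

/-- the universal covering is the projective plane only for the projective plane -/
lemma of_uc (X : S.M) (h : C.ord X ≠ 0) (hX : C.uc X = S.cp2) : X = S.cp2 := by
  have h2 := C.sg_uc X h
  have h3 : S.sg S.cp2 = 1 := by
    unfold Symp.sg
    rw [S.bp_cp2, S.bm_cp2]
    norm_num
  rw [hX, h3] at h2
  have h4 : (C.ord X : ℤ) ∣ 1 := ⟨_, h2⟩
  have h5 : C.ord X = 1 := by
    have := Int.natCast_dvd_natCast.1 (by simpa using h4 : ((C.ord X : ℕ) : ℤ) ∣ ((1 : ℕ) : ℤ))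
    exact Nat.dvd_one.1 this
  rw [← hX, C.uc_sc X ((C.ord_sc X).1 h5)]

/-- **Counterexamples from manifolds with finite fundamental group.** -/
theorem explicit (X : S.M) (h : C.ord X ≠ 0) (hX : X ≠ S.cp2) (hc : 3 * S.e X ≤ S.c1sq X) :
    ∃ k : ℕ, S.c1sq X = 3 * S.e X + 4 * k ∧
      S.sc (blow S (C.uc X) (C.ord X * k)) ∧
      3 * S.sg (blow S (C.uc X) (C.ord X * k)) = S.e (blow S (C.uc X) (C.ord X * k)) ∧
      blow S (C.uc X) (C.ord X * k) ≠ S.cp2 ∧
      S.e (blow S (C.uc X) (C.ord X * k)) = C.ord X * (S.e X + k) := by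
  obtain ⟨a, ha⟩ := four_dvd_exc X
  have h1 := c1sq_eq C X
  have ha0 : 0 ≤ a := by omega
  obtain ⟨k, rfl⟩ := Int.eq_ofNat_of_zero_le ha0
  refine ⟨k, by rw [h1, ha], ?_, ?_, ?_, ?_⟩
  · exact (prop_blow S.sc S.sc_bl _ _).2 (C.sc_uc X h)
  · have h2 := exc_blow (S := S) (C.uc X) (C.ord X * k)
    rw [exc_uc C X h, ha] at h2
    unfold exc at h2
    push_cast at h2
    linarith
  · intro h2
    have h3 := b2_blow (S := S) (C.uc X) (C.ord X * k)
    rw [h2, b2_cp2] at h3
    have h4 := b2_pos (S := S) (C.uc X)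
    have h5 : C.ord X * k = 0 := by omega
    rw [h5] at h2
    exact hX (of_uc C X h h2)
  · unfold Symp.e
    rw [b1_blow, bp_blow, bm_blow]
    have h2 := C.e_uc X h
    unfold Symp.e at h2
    push_cast
    push_cast at h2
    linarith

theorem neg_of_onlyPlane (hS : S.OnlyPlane) (X : S.M) (h : C.ord X ≠ 0) (hX : X ≠ S.cp2) :
    exc X ≤ -4 := by
  obtain ⟨a, ha⟩ := four_dvd_exc X
  by_contra hlt
  have h0 : 0 ≤ exc X := by omega
  obtain ⟨k, _, h2, h3, h4, _⟩ := explicit C X h hX (by rw [c1sq_eq C X]; linarith)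
  exact h4 (hS _ h2 h3)

end Pool.Agent.U450.BY
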